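import Pool.Agent.Work.MP_db9399_ot_helper94.LTZ
import Pool.Agent.Work.MP_db9399_lt_helper94.Final

/-!
# LTZ, unconditional
-/

set_option autoImplicit false

namespace Pool.Agent.Work.MP_db9399_ot.helper94

universe u

theorem ltz : Stmt_LTZ.{u} := stmt_LTZ MP_db9399_lt.helper94.lt

end Pool.Agent.Work.MP_db9399_ot.helper94
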