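import Pool.Agent.Work.MP_db9399_lt.Base
import Pool.Agent.Work.MP_db9399_ot.Interface

/-!
# LTZ: LT with an exceptional set `Z` of vertices without the condition `CF`
-/

set_option autoImplicit false
set_option linter.unusedSectionVars false

namespace Pool.Agent.Work.MP_db9399_ot.helper94

open Finset Classical
open Pool.Agent.Work.MP_db9399_all (nb)
open Pool.Agent.Work.MP_db9399_nc (nn PEC Mts mem_nb mem_nn)
open Pool.Agent.Work.MP_db9399_lt

universe u

/-- the hypotheses of LT; the condition `CF` is only required outside of the set `Z`, and the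
bounds `x`, `y` hold with the number of elements of `Z` added -/
structure LZ {V : Type u} [Fintype V] (G : SimpleGraph V) (d x y h s : ℕ)
    (F : V → Finset ℕ) (p : V → Fin 3) (a : V → Bool) (C : Fin 3 → Finset ℕ)
    (Z : Finset V) : Prop where
  x1 : 1 ≤ x
  xd : 10 ^ 26 * x ≤ d
  yh : 100 * y ≤ h
  hd : 10 ^ 12 * h ≤ d
  dh : d ≤ 10 ^ 13 * h
  deg : ∀ v, (nb G v).card + (F v).card = d + 1
  inn : ∀ v, (nn G univ v).card ≤ x
  Fx : ∀ v, (F v).card + Z.card ≤ x
  Flt : ∀ v, ∀ b ∈ F v, b < d + 2
  load : ∀ b, (us F b \ Z).card + Z.card ≤ y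
  par : (wr F (range (d + 2))).card ≤ Fintype.card V
  cs : ∀ i l, (cell p a i l).card ≤ s ∧ s + Z.card ≤ (cell p a i l).card + x
  Clt : ∀ i, ∀ b ∈ C i, b < d + 2
  Cdis : ∀ i j, i ≠ j → Disjoint (C i) (C j)
  Ccard : ∀ i, (C i).card + h = 2 * s
  CF : ∀ v, v ∉ Z → Disjoint (F v) (C (p v))

theorem hall2 {α : Type u} (N : Finset α) (P : Finset ℕ) (ok : α → ℕ → Prop)
    (hc : N.card = P.card) (h1 : ∀ v ∈ N, P.card < 2 * (P.filter (fun b => ok v b)).card)
    (h2 : ∀ b ∈ P, N.card < 2 * (N.filter (fun v => ok v b)).card) :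
    ∃ f : α → ℕ, (∀ v ∈ N, f v ∈ P ∧ ok v (f v)) ∧ Set.InjOn f (N : Set α) ∧
      ∀ b ∈ P, ∃ v ∈ N, f v = b := by
  have hall : ∀ S : Finset {v // v ∈ N},
      S.card ≤ (S.biUnion (fun v => P.filter (fun b => ok v.val b))).card := by
    intro S
    rcases S.eq_empty_or_nonempty with hS | ⟨v0, hv0⟩
    · subst hS; simp
    by_cases hbig : 2 * S.card ≤ P.card
    · have e1 : (P.filter (fun b => ok v0.val b)).card ≤
          (S.biUnion (fun v => P.filter (fun b => ok v.val b))).card :=
        card_le_card (subset_biUnion_of_mem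
          (fun v : {v // v ∈ N} => P.filter (fun b => ok v.val b)) hv0)
      have e2 := h1 v0.val v0.property
      omega
    · have e1 : P ⊆ S.biUnion (fun v => P.filter (fun b => ok v.val b)) := by
        intro b hb
        by_contra hcon
        have e2 : S.map (Function.Embedding.subtype _) ⊆ N.filter (fun v => ¬ ok v b) := by
          intro v hv
          rw [mem_map] at hv
          obtain ⟨v', hv', rfl⟩ := hv
          rw [mem_filter]
          refine ⟨v'.property, fun h => hcon ?_⟩
          rw [mem_biUnion]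
          exact ⟨v', hv', mem_filter.mpr ⟨hb, h⟩⟩
        have e3 := card_le_card e2
        rw [card_map] at e3
        have e4 := h2 b hb
        have e5 : (N.filter (fun v => ok v b)).card + (N.filter (fun v => ¬ ok v b)).card =
          N.card := card_filter_add_card_filter_not _
        omega
      have e2 : S.card ≤ N.card := by
        have := card_le_univ S
        rwa [Fintype.card_coe] at this
      have e3 := card_le_card e1
      omega
  obtain ⟨g, hg1, hg2⟩ := (all_card_le_biUnion_card_iff_exists_injective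
    (fun v : {v // v ∈ N} => P.filter (fun b => ok v.val b))).mp hall
  have hgB : ∀ v, g v ∈ P := fun v => (mem_filter.mp (hg2 v)).1
  have hgo : ∀ v, ok v.val (g v) := fun v => (mem_filter.mp (hg2 v)).2
  have himg : univ.image g = P := by
    apply eq_of_subset_of_card_le
    · intro w hw
      rw [mem_image] at hw
      obtain ⟨v, -, rfl⟩ := hw
      exact hgB v
    · rw [card_image_of_injective _ hg1, card_univ, Fintype.card_coe, hc]
  refine ⟨fun v => if h : v ∈ N then g ⟨v, h⟩ else 0, ?_, ?_, ?_⟩
  · intro v hv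
    simp only [dif_pos hv]
    exact ⟨hgB _, hgo ⟨v, hv⟩⟩
  · intro v hv w hw he
    rw [mem_coe] at hv hw
    simp only [dif_pos hv, dif_pos hw] at he
    have := hg1 he
    exact congrArg Subtype.val this
  · intro b hb
    rw [← himg, mem_image] at hb
    obtain ⟨v, -, hv⟩ := hb
    refine ⟨v.val, v.property, ?_⟩
    simp only [dif_pos v.property]
    exact hv

theorem mem_sdiff2 {W : Type u} [Fintype W] {A B : Finset W} {v : W} :
    v ∈ A \ B ↔ v ∈ A ∧ v ∉ B := mem_sdiff

theorem mem_wr2 {W : Type u} [Fintype W] {F : W → Finset ℕ} {B : Finset ℕ} {b : ℕ} :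
    b ∈ wr F B ↔ b ∈ B ∧ Odd (Fintype.card W - (us F b).card) := by
  have e1 := card_sdiff_add_card_eq_card (subset_univ (us F b))
  rw [card_univ] at e1
  have e2 : Fintype.card W - (us F b).card = (univ \ us F b).card := by omega
  rw [mem_wr, e2]

section sub
variable {V : Type u} [Fintype V]

theorem card_sub (z : V) (q : V → Prop) [DecidablePred q]
    [DecidablePred (fun v : {v : V // v ≠ z} => q v.1)] [Decidable (q z)] :
    (univ.filter (fun v : {v : V // v ≠ z} => q v.1)).card + (if q z then 1 else 0) =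
      (univ.filter q).card := by
  have h1 : univ.filter q = (univ.filter (fun v : {v : V // v ≠ z} => q v.1)).map
      (Function.Embedding.subtype _) ∪ (if q z then {z} else ∅) := by
    ext v
    simp only [mem_filter, mem_univ, true_and, mem_union, mem_map,
      Function.Embedding.subtype_apply]
    constructor
    · intro hv
      by_cases hz : v = z
      · right
        subst hz
        simp [hv]
      · left
        exact ⟨⟨v, hz⟩, hv, rfl⟩
    · rintro (⟨w, hw, rfl⟩ | hv)
      · exact hw
      · by_cases hq : q z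
        · rw [if_pos hq, mem_singleton] at hv
          rw [hv]; exact hq
        · rw [if_neg hq] at hv
          exact absurd hv (notMem_empty _)
  have h2 : Disjoint ((univ.filter (fun v : {v : V // v ≠ z} => q v.1)).map
      (Function.Embedding.subtype _)) (if q z then {z} else ∅) := by
    rw [disjoint_left]
    intro v hv hv'
    rw [mem_map] at hv
    obtain ⟨w, -, rfl⟩ := hv
    by_cases hq : q z
    · rw [if_pos hq, mem_singleton] at hv'
      exact w.property hv'
    · rw [if_neg hq] at hv'
      exact absurd hv' (notMem_empty _)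
  rw [h1, card_union_of_disjoint h2, card_map]
  by_cases hq : q z
  · simp [hq]
  · simp [hq]

theorem card_pt_le {p : V → Fin 3} {a : V → Bool} {s : ℕ}
    (hs : ∀ i l, (cell p a i l).card ≤ s) (i : Fin 3) : (pt p i).card ≤ 2 * s := by
  have h1 := hs i true
  have h2 := hs i false
  rw [pt_cell p a i]; omega

variable {G : SimpleGraph V} {d x y h s : ℕ} {F : V → Finset ℕ} {p : V → Fin 3} {a : V → Bool}
    {C : Fin 3 → Finset ℕ} {Z : Finset V}

/-- the sets of used colours after the star of `z` has been coloured by `f` -/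
noncomputable def F' (G : SimpleGraph V) (F : V → Finset ℕ) (z : V) (f : V → ℕ)
    (v : {v : V // v ≠ z}) : Finset ℕ :=
  F v.1 ∪ (if G.Adj z v.1 then {f v.1} else ∅)

theorem mem_F' {z : V} {f : V → ℕ} {v : {v : V // v ≠ z}} {b : ℕ} :
    b ∈ F' G F z f v ↔ b ∈ F v.1 ∨ (G.Adj z v.1 ∧ b = f v.1) := by
  unfold F'
  rw [mem_union]
  by_cases hz : G.Adj z v.1
  · simp [hz]
  · simp [hz]

theorem LZ.nums (H : LZ G d x y h s F p a C Z) (z : V) :
    6 * s ≤ d + 2 + 7 * x ∧ d + 2 ≤ Fintype.card V + x := by
  have h1 := card_V G z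
  have h2 := H.deg z
  have h3 := H.inn z
  have h4 := H.Fx z
  have h5 := card_parts p
  have h6 : ∀ i, 2 * s ≤ (pt p i).card + 2 * x := by
    intro i
    have e1 := (H.cs i true).2
    have e2 := (H.cs i false).2
    rw [pt_cell p a i]; omega
  have h7 := h6 0
  have h8 := h6 1
  have h9 := h6 2
  constructor <;> omega

/-- the colouring of the star of `z` -/
theorem star (H : LZ G d x y h s F p a C Z) {z : V} :
    ∃ (f : V → ℕ) (b0 : ℕ), b0 ∈ range (d + 2) \ F z ∧
      (∀ v, G.Adj z v → f v ∈ (range (d + 2) \ F z).erase b0 ∧ f v ∉ F v ∧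
        (v ∈ Z ∨ f v ∉ C (p v))) ∧
      Set.InjOn f (nb G z : Set V) ∧
      (∀ b ∈ (range (d + 2) \ F z).erase b0, ∃ v, G.Adj z v ∧ f v = b) ∧
      ((∃ b ∈ range (d + 2) \ F z, b ∈ wr F (range (d + 2))) → b0 ∈ wr F (range (d + 2))) := by
  have hx1 := H.x1
  have hxd := H.xd
  have hyh := H.yh
  have hhd := H.hd
  have hz1 := H.deg z
  have hz2 := H.Fx z
  obtain ⟨hn1, hn2⟩ := H.nums z
  norm_num at hxd hyh hhd
  have hK : (range (d + 2) \ F z).card = (nb G z).card + 1 := by
    have e1 : F z ⊆ range (d + 2) := fun b hb => mem_range.mpr (H.Flt z b hb)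
    rw [card_sdiff_of_subset e1, card_range]
    omega
  have hK1 : (range (d + 2) \ F z).Nonempty := by
    rw [← card_pos]; omega
  obtain ⟨b0, hb0, hb1⟩ : ∃ b0 ∈ range (d + 2) \ F z,
      ((∃ b ∈ range (d + 2) \ F z, b ∈ wr F (range (d + 2))) → b0 ∈ wr F (range (d + 2))) := by
    by_cases hw : ∃ b ∈ range (d + 2) \ F z, b ∈ wr F (range (d + 2))
    · obtain ⟨b, hb, hb'⟩ := hw
      exact ⟨b, hb, fun _ => hb'⟩
    · obtain ⟨b, hb⟩ := hK1
      exact ⟨b, hb, fun h => absurd h hw⟩
  have hP : ((range (d + 2) \ F z).erase b0).card = (nb G z).card := by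
    rw [card_erase_of_mem hb0, hK]; omega
  obtain ⟨ok, hok⟩ : ∃ ok : V → ℕ → Prop,
      ∀ v b, ok v b ↔ b ∉ F v ∧ (v ∈ Z ∨ b ∉ C (p v)) := ⟨_, fun _ _ => Iff.rfl⟩
  obtain ⟨f, hf1, hf2, hf3⟩ := hall2 (nb G z) ((range (d + 2) \ F z).erase b0) ok hP.symm
    (by
      intro v hv
      have e1 : (range (d + 2) \ F z).erase b0 ⊆ ((range (d + 2) \ F z).erase b0).filter
          (fun b => ok v b) ∪ (F v ∪ C (p v)) := by
        intro b hb
        rw [mem_union, mem_filter, mem_union, hok]
        by_cases hb2 : b ∈ F v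
        · exact Or.inr (Or.inl hb2)
        · by_cases hb3 : b ∈ C (p v)
          · exact Or.inr (Or.inr hb3)
          · exact Or.inl ⟨hb, hb2, Or.inr hb3⟩
      have e2 := (card_le_card e1).trans (card_union_le _ _)
      have e3 := card_union_le (F v) (C (p v))
      have e4 := H.Fx v
      have e5 := H.Ccard (p v)
      omega)
    (by
      intro b hb
      have e1 : ∃ i : Fin 3, nb G z ⊆ (nb G z).filter
          (fun v => ok v b) ∪ (us F b ∪ pt p i) := by
        by_cases hb2 : ∃ i, b ∈ C i
        · obtain ⟨i, hi⟩ := hb2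
          refine ⟨i, ?_⟩
          intro v hv
          rw [mem_union, mem_filter, mem_union, mem_us, mem_pt, hok]
          by_cases hb3 : b ∈ F v
          · exact Or.inr (Or.inl hb3)
          · by_cases hb4 : p v = i
            · exact Or.inr (Or.inr hb4)
            · refine Or.inl ⟨hv, hb3, Or.inr ?_⟩
              intro hb5
              exact (disjoint_left.mp (H.Cdis _ _ hb4)) hb5 hi
        · refine ⟨0, ?_⟩
          intro v hv
          rw [mem_union, mem_filter, mem_union, mem_us, hok]
          by_cases hb3 : b ∈ F v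
          · exact Or.inr (Or.inl hb3)
          · exact Or.inl ⟨hv, hb3, Or.inr (fun hb5 => hb2 ⟨_, hb5⟩)⟩
      obtain ⟨i, e1⟩ := e1
      have e2 := (card_le_card e1).trans (card_union_le _ _)
      have e3 := card_union_le (us F b) (pt p i)
      have e4 := H.load b
      have e5 := card_pt_le (fun i l => (H.cs i l).1) i
      have e6 : (us F b).card ≤ (us F b \ Z).card + Z.card := by
        refine (card_le_card ?_).trans (card_union_le (us F b \ Z) Z)
        intro v hv
        rw [mem_union, mem_sdiff]
        by_cases h2 : v ∈ Z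
        · exact Or.inr h2
        · exact Or.inl ⟨hv, h2⟩
      omega)
  refine ⟨f, b0, hb0, ?_, hf2, ?_, hb1⟩
  · intro v hv
    obtain ⟨e1, e2⟩ := hf1 v (mem_nb.mpr hv)
    rw [hok] at e2
    exact ⟨e1, e2.1, e2.2⟩
  · intro b hb
    obtain ⟨v, hv, hv2⟩ := hf3 b hb
    exact ⟨v, mem_nb.mp hv, hv2⟩

theorem step (H : LZ G d x y h s F p a C Z) {z : V} (hz : z ∈ Z) :
    ∃ f : V → ℕ, (∀ v, G.Adj z v → f v < d + 2 ∧ f v ∉ F z ∧ f v ∉ F v) ∧
      Set.InjOn f (nb G z : Set V) ∧
      LZ (G.comap (Subtype.val : {v : V // v ≠ z} → V)) d x y h s (F' G F z f)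
        (fun v => p v.1) (fun v => a v.1) C
        (univ.filter (fun v : {v : V // v ≠ z} => v.1 ∈ Z)) := by
  obtain ⟨f, b0, hb0, hf1, hf2, hf3, hf4⟩ := star H (z := z)
  obtain ⟨hn1, hn2⟩ := H.nums z
  have hx1 := H.x1
  have hxd := H.xd
  have hyh := H.yh
  have hhd := H.hd
  norm_num at hxd hyh hhd
  have hZ : (univ.filter (fun v : {v : V // v ≠ z} => v.1 ∈ Z)).card + 1 = Z.card := by
    have e1 := card_sub z (fun v => v ∈ Z)
    rw [if_pos hz] at e1
    rw [e1]
    congr 1
    ext v
    simp
  have hV : Fintype.card {v : V // v ≠ z} + 1 = Fintype.card V := by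
    have e1 := card_sub z (fun _ => True)
    simpa using e1
  have hlt : ∀ v, G.Adj z v → f v < d + 2 := fun v hv =>
    mem_range.mp (mem_sdiff.mp (mem_of_mem_erase (hf1 v hv).1)).1
  have hFz : ∀ v, G.Adj z v → f v ∉ F z := fun v hv =>
    (mem_sdiff.mp (mem_of_mem_erase (hf1 v hv).1)).2
  -- the number of neighbours of `z` with the colour `b`
  have hone : ∀ b, (univ.filter (fun v => G.Adj z v ∧ b = f v)).card =
      if b ∈ (range (d + 2) \ F z).erase b0 then 1 else 0 := by
    intro b
    by_cases hb : b ∈ (range (d + 2) \ F z).erase b0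
    · rw [if_pos hb, card_eq_one]
      obtain ⟨v, hv1, hv2⟩ := hf3 b hb
      refine ⟨v, ?_⟩
      ext w
      simp only [mem_filter, mem_univ, true_and, mem_singleton]
      constructor
      · rintro ⟨hw1, hw2⟩
        exact hf2 (mem_coe.mpr (mem_nb.mpr hw1)) (mem_coe.mpr (mem_nb.mpr hv1))
          (by rw [← hw2, hv2])
      · rintro rfl
        exact ⟨hv1, hv2.symm⟩
    · rw [if_neg hb, card_eq_zero, filter_eq_empty_iff]
      rintro v - ⟨hv1, hv2⟩
      exact hb (hv2 ▸ (hf1 v hv1).1)
  -- the number of vertices where `b` is used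
  have hus : ∀ b, (us (F' G F z f) b).card + (if b ∈ F z then 1 else 0) =
      (us F b).card + if b ∈ (range (d + 2) \ F z).erase b0 then 1 else 0 := by
    intro b
    have e1 := card_sub z (fun v => b ∈ F v ∨ (G.Adj z v ∧ b = f v))
    have e2 : (us (F' G F z f) b) =
        univ.filter (fun v : {v : V // v ≠ z} => b ∈ F v.1 ∨ (G.Adj z v.1 ∧ b = f v.1)) := by
      ext v
      rw [mem_us, mem_F']
      simp
    have e3 : (univ.filter (fun v => b ∈ F v ∨ (G.Adj z v ∧ b = f v))).card =
        (us F b).card + (univ.filter (fun v => G.Adj z v ∧ b = f v)).card := by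
      rw [filter_or, card_union_of_disjoint]
      · rfl
      · rw [disjoint_left]
        intro v hv hv'
        rw [mem_filter] at hv hv'
        exact (hf1 v hv'.2.1).2.1 (hv'.2.2 ▸ hv.2)
    have e4 : (b ∈ F z ∨ (G.Adj z z ∧ b = f z)) ↔ b ∈ F z := by
      simp
    rw [e2, ← hone b, ← e3, ← e1]
    simp only [e4]
  have hle : ∀ b, (us F b).card ≤ Fintype.card V := fun b => card_le_univ _
  have hle' : ∀ b, (us (F' G F z f) b).card ≤ Fintype.card {v : V // v ≠ z} :=
    fun b => card_le_univ _
  have hodd1 : ∀ b ∈ range (d + 2), b ≠ b0 →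
      (Odd (Fintype.card {v : V // v ≠ z} - (us (F' G F z f) b).card) ↔
        Odd (Fintype.card V - (us F b).card)) := by
    intro b hb hbb
    have e1 := hus b
    have e2 := hle b
    have e3 := hle' b
    by_cases hb2 : b ∈ F z
    · rw [if_pos hb2, if_neg (by simp [hb2])] at e1
      have : Fintype.card {v : V // v ≠ z} - (us (F' G F z f) b).card =
        Fintype.card V - (us F b).card := by omega
      rw [this]
    · rw [if_neg hb2, if_pos (by rw [mem_erase, mem_sdiff]; exact ⟨hbb, hb, hb2⟩)] at e1
      have : Fintype.card V - (us F b).card =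
        (Fintype.card {v : V // v ≠ z} - (us (F' G F z f) b).card) + 2 := by omega
      rw [this]
      simp [Nat.odd_add]
  have hb0r : b0 ∈ range (d + 2) := (mem_sdiff.mp hb0).1
  have hb0F : b0 ∉ F z := (mem_sdiff.mp hb0).2
  have hodd2 : (Odd (Fintype.card {v : V // v ≠ z} - (us (F' G F z f) b0).card) ↔
      ¬ Odd (Fintype.card V - (us F b0).card)) := by
    have e1 := hus b0
    have e2 := hle b0
    have e3 := hle' b0
    rw [if_neg hb0F, if_neg (by simp)] at e1
    have : Fintype.card V - (us F b0).card =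
      (Fintype.card {v : V // v ≠ z} - (us (F' G F z f) b0).card) + 1 := by omega
    rw [this, Nat.odd_add_one, not_not]
  refine ⟨f, fun v hv => ⟨hlt v hv, hFz v hv, (hf1 v hv).2.1⟩, hf2, ?_⟩
  constructor
  · exact H.x1
  · exact H.xd
  · exact H.yh
  · exact H.hd
  · exact H.dh
  · -- degrees
    intro v
    have e1 := card_sub z (fun w => G.Adj v.1 w)
    have e2 : (nb (G.comap (Subtype.val : {v : V // v ≠ z} → V)) v) =
        univ.filter (fun w : {v : V // v ≠ z} => G.Adj v.1 w.1) := by
      ext w
      rw [mem_nb]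
      simp
    have e3 : (F' G F z f v).card = (F v.1).card + if G.Adj v.1 z then 1 else 0 := by
      unfold F'
      rw [card_union_of_disjoint]
      · by_cases hv : G.Adj z v.1
        · rw [if_pos hv, if_pos hv.symm, card_singleton]
        · rw [if_neg hv, if_neg (fun hh => hv hh.symm), card_empty]
      · rw [disjoint_left]
        intro b hb hb'
        by_cases hv : G.Adj z v.1
        · rw [if_pos hv, mem_singleton] at hb'
          exact (hf1 v.1 hv).2.1 (hb' ▸ hb)
        · rw [if_neg hv] at hb'
          exact absurd hb' (notMem_empty _)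
    have e4 := H.deg v.1
    have e5 : (nb G v.1).card = (univ.filter (fun w => G.Adj v.1 w)).card := by
      congr 1
    rw [e2, e3]
    omega
  · -- nonneighbours
    intro v
    have e1 := card_sub z (fun w => w ≠ v.1 ∧ ¬ G.Adj v.1 w)
    have e2 : nn (G.comap (Subtype.val : {v : V // v ≠ z} → V)) univ v =
        univ.filter (fun w : {v : V // v ≠ z} => w.1 ≠ v.1 ∧ ¬ G.Adj v.1 w.1) := by
      ext w
      rw [mem_nn]
      simp [Subtype.ext_iff]
    have e3 : nn G univ v.1 = univ.filter (fun w => w ≠ v.1 ∧ ¬ G.Adj v.1 w) := by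
      ext w
      rw [mem_nn]
      simp
    have e4 := H.inn v.1
    rw [e3] at e4
    rw [e2]
    omega
  · intro v
    have e1 := H.Fx v.1
    have e2 : (F' G F z f v).card ≤ (F v.1).card + 1 := by
      unfold F'
      refine (card_union_le _ _).trans ?_
      by_cases hv : G.Adj z v.1
      · rw [if_pos hv, card_singleton]
      · rw [if_neg hv, card_empty]; omega
    omega
  · intro v b hb
    rw [mem_F'] at hb
    rcases hb with hb | ⟨hb1, hb2⟩
    · exact H.Flt _ b hb
    · rw [hb2]; exact hlt _ hb1
  · intro b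
    have e1 := card_sub z (fun v => (b ∈ F v ∨ (G.Adj z v ∧ b = f v)) ∧ v ∉ Z)
    rw [if_neg (fun hh => hh.2 hz)] at e1
    have e2 : ∀ S : Finset {v : V // v ≠ z},
        (∀ v, v ∈ S ↔ (b ∈ F v.1 ∨ (G.Adj z v.1 ∧ b = f v.1)) ∧ v.1 ∉ Z) →
        S.card = (univ.filter (fun v : {v : V // v ≠ z} =>
          (b ∈ F v.1 ∨ (G.Adj z v.1 ∧ b = f v.1)) ∧ v.1 ∉ Z)).card := by
      intro S hS
      congr 1
      ext v
      rw [hS]
      simp
    have e3 : (univ.filter (fun v => (b ∈ F v ∨ (G.Adj z v ∧ b = f v)) ∧ v ∉ Z)).card ≤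
        (us F b \ Z).card + (univ.filter (fun v => G.Adj z v ∧ b = f v)).card := by
      refine (card_le_card ?_).trans (card_union_le _ _)
      intro v hv
      rw [mem_filter] at hv
      rw [mem_union, mem_sdiff, mem_us, mem_filter]
      rcases hv.2.1 with h2 | h2
      · exact Or.inl ⟨h2, hv.2.2⟩
      · exact Or.inr ⟨hv.1, h2⟩
    have e4 := H.load b
    have e5 : (if b ∈ (range (d + 2) \ F z).erase b0 then 1 else 0) ≤ 1 := by
      split_ifs <;> omega
    rw [hone b] at e3
    rw [e2 _ (by
      intro v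
      rw [mem_sdiff2, mem_us, mem_F', mem_filter]
      simp)]
    omega
  · -- parity
    have hp := H.par
    by_cases hw : b0 ∈ wr F (range (d + 2))
    · have e1 : wr (F' G F z f) (range (d + 2)) ⊆ (wr F (range (d + 2))).erase b0 := by
        intro b hb
        rw [mem_wr2] at hb
        rw [mem_erase, mem_wr2]
        by_cases hbb : b = b0
        · exfalso
          rw [hbb] at hb
          exact (hodd2.mp hb.2) (mem_wr2.mp hw).2
        · exact ⟨hbb, hb.1, (hodd1 b hb.1 hbb).mp hb.2⟩
      have e2 := card_le_card e1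
      rw [card_erase_of_mem hw] at e2
      omega
    · have e1 : wr (F' G F z f) (range (d + 2)) ⊆ insert b0 (F z) := by
        intro b hb
        rw [mem_wr2] at hb
        rw [mem_insert]
        by_cases hbb : b = b0
        · exact Or.inl hbb
        · right
          by_contra hb2
          exact hw (hf4 ⟨b, mem_sdiff.mpr ⟨hb.1, hb2⟩,
            mem_wr2.mpr ⟨hb.1, (hodd1 b hb.1 hbb).mp hb.2⟩⟩)
      have e2 := (card_le_card e1).trans (card_insert_le _ _)
      have e3 := H.Fx z
      omega
  · intro i l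
    have e1 := card_sub z (fun v => p v = i ∧ a v = l)
    have e2 := H.cs i l
    have e3 : (if (p z = i ∧ a z = l) then 1 else 0) ≤ 1 := by
      split_ifs <;> omega
    have e4 : (cell (fun v : {v : V // v ≠ z} => p v.1) (fun v => a v.1) i l).card =
        (univ.filter (fun v : {v : V // v ≠ z} => p v.1 = i ∧ a v.1 = l)).card := by
      congr 1
    have e5 : (cell p a i l).card = (univ.filter (fun v => p v = i ∧ a v = l)).card := by
      congr 1
    rw [e4]
    rw [e5] at e2
    constructor
    · omega
    · omega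
  · exact H.Clt
  · exact H.Cdis
  · exact H.Ccard
  · intro v hv
    have hv2 : v.1 ∉ Z := by
      intro h2
      exact hv (mem_filter.mpr ⟨mem_univ _, h2⟩)
    have e1 := H.CF v.1 hv2
    rw [disjoint_left] at e1 ⊢
    intro b hb hb2
    rw [mem_F'] at hb
    rcases hb with hb | ⟨hb3, hb4⟩
    · exact e1 hb hb2
    · rcases (hf1 v.1 hb3).2.2 with h2 | h2
      · exact hv2 h2
      · exact h2 (hb4 ▸ hb2)

end sub

theorem stmt_LTZ (hLT : Stmt_LT.{u}) : Stmt_LTZ.{u} := by
  have key : ∀ n : ℕ, ∀ {V : Type u} [Fintype V] (G : SimpleGraph V) (d x y h s : ℕ)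
      (F : V → Finset ℕ) (p : V → Fin 3) (a : V → Bool) (C : Fin 3 → Finset ℕ) (Z : Finset V),
      Z.card = n → LZ G d x y h s F p a C Z →
      ∃ t : V → V → ℕ, (∀ v w, t v w = t w v) ∧ (∀ v w, G.Adj v w → t v w < d + 2 ∧
        t v w ∉ F v) ∧ ∀ v, Set.InjOn (t v) (nb G v : Set V) := by
    intro n
    induction n with
    | zero =>
      intro V _ G d x y h s F p a C Z hZ H
      have hZ0 : Z = ∅ := card_eq_zero.mp hZ
      refine hLT G d x y h s F p a C ?_
      constructor
      · exact H.x1
      · exact H.xd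
      · exact H.yh
      · exact H.hd
      · exact H.dh
      · exact H.deg
      · exact H.inn
      · intro v
        have := H.Fx v
        omega
      · exact H.Flt
      · intro b
        have := H.load b
        rw [hZ0] at this
        simpa using this
      · exact H.par
      · intro i l
        have := H.cs i l
        omega
      · exact H.Clt
      · exact H.Cdis
      · exact H.Ccard
      · intro v
        exact H.CF v (by rw [hZ0]; exact notMem_empty _)
    | succ n ih =>
      intro V _ G d x y h s F p a C Z hZ H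
      have hne : Z.Nonempty := by
        rw [← card_pos]; omega
      obtain ⟨z, hz⟩ := hne
      obtain ⟨f, hf1, hf2, H'⟩ := step H hz
      have hZ' : (univ.filter (fun v : {v : V // v ≠ z} => v.1 ∈ Z)).card = n := by
        have e1 := card_sub z (fun v => v ∈ Z)
        rw [if_pos hz] at e1
        have e2 : univ.filter (fun v => v ∈ Z) = Z := by
          ext v
          simp
        rw [e2] at e1
        omega
      obtain ⟨t, ht1, ht2, ht3⟩ := ih _ d x y h s _ _ _ C _ hZ' H'
      have hT : ∃ T : V → V → ℕ, (∀ v w, T v w = T w v) ∧ (∀ w, T z w = f w) ∧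
          ∀ v w : {v : V // v ≠ z}, T v.1 w.1 = t v w := by
        refine ⟨fun v w => if hv : v = z then f w else if hw : w = z then f v else
          t ⟨v, hv⟩ ⟨w, hw⟩, ?_, ?_, ?_⟩
        · intro v w
          by_cases hv : v = z
          · by_cases hw : w = z
            · simp [hv, hw]
            · simp [hv, hw]
          · by_cases hw : w = z
            · simp [hv, hw]
            · simp only [dif_neg hv, dif_neg hw]
              exact ht1 _ _
        · intro w
          simp
        · intro v w
          simp only [dif_neg v.2, dif_neg w.2]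
      obtain ⟨T, hT1, hT2, hT3⟩ := hT
      refine ⟨T, hT1, ?_, ?_⟩
      · intro v w hvw
        by_cases hv : v = z
        · subst hv
          rw [hT2]
          exact ⟨(hf1 w hvw).1, (hf1 w hvw).2.1⟩
        · by_cases hw : w = z
          · subst hw
            rw [hT1, hT2]
            exact ⟨(hf1 v hvw.symm).1, (hf1 v hvw.symm).2.2⟩
          · have e1 := ht2 ⟨v, hv⟩ ⟨w, hw⟩ hvw
            have e2 := hT3 ⟨v, hv⟩ ⟨w, hw⟩
            rw [← e2, mem_F'] at e1
            exact ⟨e1.1, fun hh => e1.2 (Or.inl hh)⟩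
      · intro v w hw w' hw' he
        rw [mem_coe, mem_nb] at hw hw'
        by_cases hv : v = z
        · subst hv
          rw [hT2, hT2] at he
          exact hf2 (mem_coe.mpr (mem_nb.mpr hw)) (mem_coe.mpr (mem_nb.mpr hw')) he
        · have key2 : ∀ u u' : V, G.Adj v u → G.Adj v u' → T v u = T v u' → u = z → u' = z := by
            intro u u' hu hu' huu huz
            by_contra hu'z
            have e1 := ht2 ⟨v, hv⟩ ⟨u', hu'z⟩ hu'
            have e2 := hT3 ⟨v, hv⟩ ⟨u', hu'z⟩
            rw [mem_F'] at e1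
            apply e1.2
            refine Or.inr ⟨(huz ▸ hu).symm, ?_⟩
            rw [← e2, ← huu, huz, hT1, hT2]
          by_cases hwz : w = z
          · rw [hwz, key2 w w' hw hw' he hwz]
          · by_cases hwz' : w' = z
            · exact absurd (key2 w' w hw' hw he.symm hwz') hwz
            · have e1 := hT3 ⟨v, hv⟩ ⟨w, hwz⟩
              have e2 := hT3 ⟨v, hv⟩ ⟨w', hwz'⟩
              have e4 : (⟨w, hwz⟩ : {v : V // v ≠ z}) ∈
                  (nb (G.comap (Subtype.val : {v : V // v ≠ z} → V)) ⟨v, hv⟩ : Set _) := by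
                rw [mem_coe, mem_nb]
                exact hw
              have e5 : (⟨w', hwz'⟩ : {v : V // v ≠ z}) ∈
                  (nb (G.comap (Subtype.val : {v : V // v ≠ z} → V)) ⟨v, hv⟩ : Set _) := by
                rw [mem_coe, mem_nb]
                exact hw'
              have e3 := ht3 ⟨v, hv⟩ e4 e5 (by rw [← e1, ← e2]; exact he)
              exact congrArg Subtype.val e3
  intro V _ G d x y h s F p a C Z H
  refine key Z.card G d (2 * x) (y + x) h s F p a C Z rfl ?_
  have hZ := H.Zx
  constructor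
  · have := H.x1
    omega
  · exact H.xd
  · exact H.yh
  · exact H.hd
  · exact H.dh
  · exact H.deg
  · intro v
    exact (H.inn v).trans (by omega)
  · intro v
    have := H.Fx v
    omega
  · exact H.Flt
  · intro b
    have := H.load b
    omega
  · exact H.par
  · intro i l
    have := H.cs i l
    omega
  · exact H.Clt
  · exact H.Cdis
  · exact H.Ccard
  · exact H.CF

end Pool.Agent.Work.MP_db9399_ot.helper94
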